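import Mathlib
import Pool.Agent.Y272.TY.All

set_option autoImplicit false

/-!
# No superattracting parameter of small period is too close to a typical parameter
-/

open Complex Filter Topology Metric Set MeasureTheory

namespace Pool.Agent.K3h63.TC

open Pool.Agent.H712R2 Pool.Agent.H713R2 Pool.Agent.W677.Mar Pool.Agent.Y272.TY

theorem mm_eq_exp {d : ℕ} (hd : 2 ≤ d) {c0 : ℂ} (hP : ∀ n : ℕ, P d (n + 1) c0 ≠ 0) (j : ℕ)
    (hj : 1 ≤ j) : mm d c0 j = Real.exp ((j - 1 : ℕ) * Real.log d +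
      ((d : ℝ) - 1) * ∑ n ∈ Finset.range (j - 1), Real.log ‖P d (n + 1) c0‖) := by
  obtain ⟨k, rfl⟩ : ∃ k, j = k + 1 := ⟨j - 1, by omega⟩
  rw [mm_eq, Nat.add_sub_cancel]
  rw [← log_MM hd c0 k fun j _ => hP j, Real.exp_log]
  exact norm_pos_iff.2 (MM_ne_zero hd c0 k fun j _ => hP j)

theorem nearG : St_NearG := by
  intro d c0 A g hd hA hmono hlog _ hrec hsum
  have hP : ∀ n : ℕ, P d (n + 1) c0 ≠ 0 := by
    intro n h0
    have := hrec n
    rw [h0, norm_zero] at this
    exact absurd this (not_le.2 (Real.exp_pos _))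
  have hd2 : (2 : ℝ) ≤ d := by exact_mod_cast hd
  have hd0 : (0 : ℝ) < d := by linarith
  have hld : 0 ≤ Real.log (6 * d) := Real.log_nonneg (by linarith)
  refine ⟨2 * d * A + A + 2 + Real.log (6 * d) / 0.69, by positivity, ?_⟩
  intro n c hc k hk1 hkn
  obtain ⟨B, hB⟩ : ∃ B : ℝ, B = 2 * d * A + A + 2 + Real.log (6 * d) / 0.69 := ⟨_, rfl⟩
  rw [← hB] at hc
  have hgn : 0.69 ≤ g n := (log_two_le n).trans (hlog n)
  -- bounds for the derivatives
  have hg : ∀ j : ℕ, j ≤ n → |∑ i ∈ Finset.range (j - 1), Real.log ‖P d (i + 1) c0‖| ≤ A * g n := by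
    intro j hj
    refine (hsum (j - 1)).trans (mul_le_mul_of_nonneg_left (hmono (by omega)) hA)
  have hup : ∀ j : ℕ, 1 ≤ j → j ≤ n →
      mm d c0 j ≤ Real.exp ((j - 1 : ℕ) * Real.log d + d * (A * g n)) := by
    intro j hj1 hjn
    rw [mm_eq_exp hd hP j hj1, Real.exp_le_exp]
    have h1 := (abs_le.1 (hg j hjn)).2
    have h2 : 0 ≤ A * g n := by positivity
    have h3 : ((d : ℝ) - 1) * ∑ i ∈ Finset.range (j - 1), Real.log ‖P d (i + 1) c0‖ ≤
        ((d : ℝ) - 1) * (A * g n) := mul_le_mul_of_nonneg_left h1 (by linarith)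
    nlinarith
  have hlow : ∀ j : ℕ, 1 ≤ j → j ≤ n →
      Real.exp ((j - 1 : ℕ) * Real.log d - d * (A * g n)) ≤ mm d c0 j := by
    intro j hj1 hjn
    rw [mm_eq_exp hd hP j hj1, Real.exp_le_exp]
    have h1 := (abs_le.1 (hg j hjn)).1
    have h2 : 0 ≤ A * g n := by positivity
    have h3 : ((d : ℝ) - 1) * -(A * g n) ≤
        ((d : ℝ) - 1) * ∑ i ∈ Finset.range (j - 1), Real.log ‖P d (i + 1) c0‖ :=
      mul_le_mul_of_nonneg_left h1 (by linarith)
    nlinarith
  have hsum2 : ∀ j : ℕ, j ≤ n → ∑ i ∈ Finset.Icc 1 j, 1 / mm d c0 i ≤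
      2 * Real.exp (d * (A * g n)) := by
    intro j hjn
    have h1 : ∀ i ∈ Finset.Icc 1 j, 1 / mm d c0 i ≤
        Real.exp (d * (A * g n)) * (1 / 2 : ℝ) ^ (i - 1) := by
      intro i hi
      rw [Finset.mem_Icc] at hi
      have h2 := hlow i hi.1 (hi.2.trans hjn)
      have h3 : 0 < Real.exp ((i - 1 : ℕ) * Real.log d - d * (A * g n)) := Real.exp_pos _
      rw [div_le_iff₀ (h3.trans_le h2)]
      have h4 : (1 / 2 : ℝ) ^ (i - 1) * Real.exp ((i - 1 : ℕ) * Real.log d) ≥ 1 := by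
        rw [Real.exp_nat_mul, Real.exp_log hd0, ← mul_pow]
        exact one_le_pow₀ (by linarith)
      calc (1 : ℝ) ≤ (1 / 2 : ℝ) ^ (i - 1) * Real.exp ((i - 1 : ℕ) * Real.log d) := h4
        _ = Real.exp (d * (A * g n)) * (1 / 2 : ℝ) ^ (i - 1) *
            Real.exp ((i - 1 : ℕ) * Real.log d - d * (A * g n)) := by
              rw [Real.exp_sub]
              field_simp
        _ ≤ _ := by gcongr
    refine (Finset.sum_le_sum h1).trans ?_
    rw [← Finset.mul_sum, mul_comm]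
    gcongr
    have hre : ∀ j : ℕ, ∑ i ∈ Finset.Icc 1 j, (1 / 2 : ℝ) ^ (i - 1) =
        ∑ i ∈ Finset.range j, (1 / 2 : ℝ) ^ i := by
      intro j
      induction j with
      | zero => simp
      | succ j ih =>
        rw [Finset.sum_Icc_succ_top (by omega), ih, Finset.sum_range_succ]
        rfl
    calc ∑ i ∈ Finset.Icc 1 j, (1 / 2 : ℝ) ^ (i - 1) = ∑ i ∈ Finset.range j, (1 / 2 : ℝ) ^ i :=
          hre j
      _ ≤ 2 := by
          rw [geom_sum_eq (by norm_num)]
          have : (0 : ℝ) ≤ (1 / 2) ^ j := by positivity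
          rw [div_le_iff_of_neg (by norm_num)]
          linarith
  have hpos : ∀ j ∈ Finset.Icc 1 n, 0 < mm d c0 j := by
    intro j hj
    rw [Finset.mem_Icc] at hj
    rw [mm_eq_exp hd hP j hj.1]
    exact Real.exp_pos _
  have hmain : ∀ j ∈ Finset.Icc 1 n,
      3 * mm d c0 j * (∑ i ∈ Finset.Icc 1 j, 1 / mm d c0 i) * ‖c - c0‖ ≤
        ‖P d j c0‖ / (d * ((j : ℝ) + 1) ^ 2) := by
    intro j hj
    have hj' := Finset.mem_Icc.1 hj
    obtain ⟨hj1, hjn⟩ := hj'
    have hdn : 0 < (d : ℝ) ^ n := by positivity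
    have h1 : ‖c - c0‖ ≤ Real.exp (-(B * g n)) / (d : ℝ) ^ n := by
      rw [le_div_iff₀ hdn]
      exact hc
    have h2 : 3 * mm d c0 j * (∑ i ∈ Finset.Icc 1 j, 1 / mm d c0 i) * ‖c - c0‖ ≤
        3 * Real.exp ((j - 1 : ℕ) * Real.log d + d * (A * g n)) *
          (2 * Real.exp (d * (A * g n))) * (Real.exp (-(B * g n)) / (d : ℝ) ^ n) := by
      have h3 := hup j hj1 hjn
      have h4 := hsum2 j hjn
      have h5 := (hpos j hj).le
      have h6 : 0 ≤ ∑ i ∈ Finset.Icc 1 j, 1 / mm d c0 i := by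
        refine Finset.sum_nonneg fun i hi => ?_
        rw [Finset.mem_Icc] at hi
        have := hpos i (Finset.mem_Icc.2 ⟨hi.1, hi.2.trans hjn⟩)
        positivity
      gcongr
    refine h2.trans ?_
    have h7 : Real.exp ((j - 1 : ℕ) * Real.log d) ≤ (d : ℝ) ^ n := by
      rw [Real.exp_nat_mul, Real.exp_log hd0]
      exact pow_le_pow_right₀ (by linarith) (by omega)
    have h8 : 3 * Real.exp ((j - 1 : ℕ) * Real.log d + d * (A * g n)) *
          (2 * Real.exp (d * (A * g n))) * (Real.exp (-(B * g n)) / (d : ℝ) ^ n) ≤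
        6 * Real.exp (2 * d * A * g n - B * g n) := by
      have e1 : Real.exp (2 * d * A * g n - B * g n) =
          Real.exp (d * (A * g n)) * Real.exp (d * (A * g n)) * Real.exp (-(B * g n)) := by
        rw [← Real.exp_add, ← Real.exp_add]
        congr 1
        ring
      rw [Real.exp_add, e1]
      have e2 : 3 * (Real.exp ((j - 1 : ℕ) * Real.log d) * Real.exp (d * (A * g n))) *
          (2 * Real.exp (d * (A * g n))) * (Real.exp (-(B * g n)) / (d : ℝ) ^ n) =
          (Real.exp ((j - 1 : ℕ) * Real.log d) / (d : ℝ) ^ n) *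
          (6 * (Real.exp (d * (A * g n)) * Real.exp (d * (A * g n)) * Real.exp (-(B * g n)))) := by
        ring
      rw [e2]
      have e3 : Real.exp ((j - 1 : ℕ) * Real.log d) / (d : ℝ) ^ n ≤ 1 := by
        rw [div_le_one hdn]
        exact h7
      have e4 : 0 ≤ 6 * (Real.exp (d * (A * g n)) * Real.exp (d * (A * g n)) *
          Real.exp (-(B * g n))) := by positivity
      calc _ ≤ 1 * (6 * (Real.exp (d * (A * g n)) * Real.exp (d * (A * g n)) *
          Real.exp (-(B * g n)))) := mul_le_mul_of_nonneg_right e3 e4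
        _ = _ := one_mul _
    refine h8.trans ?_
    -- the right hand side
    obtain ⟨i, rfl⟩ : ∃ i, j = i + 1 := ⟨j - 1, by omega⟩
    have h9 := hrec i
    have h10 : Real.exp (-(A * Real.log (n + 2))) ≤ ‖P d (i + 1) c0‖ := by
      refine le_trans ?_ h9
      rw [Real.exp_le_exp, neg_le_neg_iff]
      have h11 : Real.log ((i : ℝ) + 2) ≤ Real.log ((n : ℝ) + 2) := by
        apply Real.log_le_log (by positivity)
        have : (i : ℝ) ≤ n := by exact_mod_cast (by omega : i ≤ n)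
        linarith
      exact mul_le_mul_of_nonneg_left h11 hA
    have h12 : ((((i + 1 : ℕ) : ℝ)) + 1) ^ 2 ≤ Real.exp (2 * Real.log (n + 2)) := by
      have h13 : (0 : ℝ) < (n : ℝ) + 2 := by positivity
      rw [two_mul, Real.exp_add, Real.exp_log h13, ← pow_two]
      have h14 : ((i + 1 : ℕ) : ℝ) ≤ n := by exact_mod_cast hjn
      gcongr
      linarith
    have h15 : Real.exp (-(A * Real.log (n + 2))) / (d * Real.exp (2 * Real.log (n + 2))) ≤
        ‖P d (i + 1) c0‖ / (d * ((((i + 1 : ℕ) : ℝ)) + 1) ^ 2) := by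
      gcongr
    refine le_trans ?_ h15
    rw [le_div_iff₀ (by positivity)]
    have e5 : (6 : ℝ) * d = Real.exp (Real.log (6 * d)) := (Real.exp_log (by positivity)).symm
    calc 6 * Real.exp (2 * d * A * g n - B * g n) * (d * Real.exp (2 * Real.log (n + 2)))
        = (6 * d) * (Real.exp (2 * d * A * g n - B * g n) * Real.exp (2 * Real.log (n + 2))) := by
          ring
      _ = Real.exp (Real.log (6 * d) + ((2 * d * A * g n - B * g n) + 2 * Real.log (n + 2))) := by
          rw [Real.exp_add, Real.exp_add, ← e5]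
      _ ≤ Real.exp (-(A * Real.log (n + 2))) := by
          rw [Real.exp_le_exp]
          have e6 : Real.log (6 * d) ≤ Real.log (6 * d) / 0.69 * g n := by
            rw [div_mul_eq_mul_div, le_div_iff₀ (by norm_num)]
            exact mul_le_mul_of_nonneg_left hgn hld
          have e7 := hlog n
          have e8 : A * Real.log ((n : ℝ) + 2) ≤ A * g n := mul_le_mul_of_nonneg_left e7 hA
          rw [hB]
          nlinarith
  have hfin := Pool.Agent.Y405.TY.t d c0 c n hd hpos hmain k (Finset.mem_Icc.2 ⟨hk1, hkn⟩)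
  intro h0
  obtain ⟨i, rfl⟩ : ∃ i, k = i + 1 := ⟨k - 1, by omega⟩
  have h16 := hfin.trans (hmain (i + 1) (Finset.mem_Icc.2 ⟨hk1, hkn⟩))
  rw [h0, zero_sub, norm_neg] at h16
  have h17 : 0 < ‖P d (i + 1) c0‖ := norm_pos_iff.2 (hP i)
  have h18 : (1 : ℝ) < d * ((((i + 1 : ℕ) : ℝ)) + 1) ^ 2 := by
    have : (0 : ℝ) ≤ ((i + 1 : ℕ) : ℝ) := Nat.cast_nonneg _
    nlinarith
  have h19 := div_lt_self h17 h18
  linarith

end Pool.Agent.K3h63.TC
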