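import Mathlib
import Pool.Agent.K3h63.TC.NearG
import Pool.Agent.Y165.TY.Centre
import Pool.Agent.H548R3.MB.Eff2

set_option autoImplicit false

/-!
# The superattracting parameters near a typical parameter: exact periods and rates
-/

open Complex Filter Topology Metric Set MeasureTheory

namespace Pool.Agent.K3h63.TC

open Pool.Agent.H712R2 Pool.Agent.H713R2 Pool.Agent.W677.Mar Pool.Agent.Y272.TY

/-- the error function, compared with `√(N log log N)` -/
theorem gg_le_sqrt {N : ℕ} (hN : 16 ≤ N) :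
    gg N ≤ 4 * √((N : ℝ) * Real.log (Real.log N)) := by
  have h16 : (16 : ℝ) ≤ N := by exact_mod_cast hN
  have hll : 1 ≤ Real.log (Real.log (N : ℝ)) := by
    have := loglog16 (N - 16)
    rw [Nat.cast_sub hN] at this
    push_cast at this
    rwa [sub_add_cancel] at this
  have hl2 : Real.log 2 < 0.7 := by have := Real.log_two_lt_d9; linarith
  have hl2' : 0 < Real.log 2 := Real.log_pos (by norm_num)
  have hlN : Real.log 2 ≤ Real.log (N : ℝ) := Real.log_le_log (by norm_num) (by linarith)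
  have h1 : Real.log ((N : ℝ) + 16) ≤ 2 * Real.log N := by
    have : Real.log ((N : ℝ) + 16) ≤ Real.log (2 * N) :=
      Real.log_le_log (by linarith) (by linarith)
    rw [Real.log_mul (by norm_num) (by linarith)] at this
    linarith
  have h2 : Real.log (Real.log ((N : ℝ) + 16)) ≤ 2 * Real.log (Real.log N) := by
    have h3 : 0 < Real.log ((N : ℝ) + 16) := Real.log_pos (by linarith)
    have h4 := Real.log_le_log h3 h1
    rw [Real.log_mul (by norm_num) (by linarith)] at h4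
    linarith
  unfold gg
  have h5 : √(((N : ℝ) + 1) * Real.log (Real.log (N + 16))) ≤
      2 * √((N : ℝ) * Real.log (Real.log N)) := by
    rw [Real.sqrt_le_left (by positivity), mul_pow, Real.sq_sqrt (by positivity)]
    have h6 : 0 ≤ Real.log (Real.log ((N : ℝ) + 16)) := by
      have := loglog16 N
      linarith
    nlinarith
  linarith

/-- if `0` is periodic with `P d (k + 1) c = 0` then the minimal period divides `k + 1` -/
theorem min_period {d : ℕ} {c : ℂ} {m : ℕ} (hm : 1 ≤ m) (h : P d m c = 0) :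
    ∃ p : ℕ, 1 ≤ p ∧ p ∣ m ∧ P d p c = 0 ∧ ∀ k : ℕ, 1 ≤ k → k < p → P d k c ≠ 0 := by
  have hex : ∃ p : ℕ, 1 ≤ p ∧ P d p c = 0 := ⟨m, hm, h⟩
  classical
  obtain ⟨h1, h2⟩ := Nat.find_spec hex
  refine ⟨Nat.find hex, h1, ?_, h2, fun k hk1 hk h0 => Nat.find_min hex hk ⟨hk1, h0⟩⟩
  have hP : ∀ k, P d k c = (fc d c)^[k] 0 := fun k => rfl
  have h3 : Function.IsPeriodicPt (fc d c) (Nat.find hex) 0 := by
    show (fc d c)^[Nat.find hex] 0 = 0
    rw [← hP]
    exact h2
  have h4 : Function.IsPeriodicPt (fc d c) m 0 := by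
    show (fc d c)^[m] 0 = 0
    rw [← hP]
    exact h
  have h5 : Function.minimalPeriod (fc d c) 0 = Nat.find hex := by
    apply le_antisymm
    · exact h3.minimalPeriod_le (by omega)
    · apply Nat.find_min' hex
      refine ⟨h3.minimalPeriod_pos (by omega), ?_⟩
      rw [hP]
      exact Function.isPeriodicPt_minimalPeriod (fc d c) 0
  rw [← h5]
  exact h4.minimalPeriod_dvd

/-- Both bounds for the superattracting parameters near a typical parameter. -/
theorem centres {d : ℕ} (hd : 2 ≤ d) {β : ℂ → ℂ} (hβ : IsBeta d β) {θ : ℝ} {c0 : ℂ} {A : ℝ}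
    {R : ℂ} (h : Typ d β θ c0 A R) : ∃ (B : ℝ) (N₀ : ℕ), 0 < B ∧ 16 ≤ N₀ ∧ ∀ N : ℕ, N₀ ≤ N →
      (∀ (c : ℂ) (p : ℕ), 1 ≤ p → p ≤ N → P d p c = 0 →
        Real.exp (-(B * √((N : ℝ) * Real.log (Real.log N)))) ≤ (d : ℝ) ^ N * ‖c - c0‖) ∧
      (∃ (c : ℂ) (p : ℕ), (p = N ∨ p = N + 1) ∧ P d p c = 0 ∧
        (∀ k : ℕ, 1 ≤ k → k < p → P d k c ≠ 0) ∧
        ‖c - c0‖ * ‖MM d c0 N‖ ≤ B * Real.log ((N : ℝ) + 1) ∧
        (d : ℝ) ^ N * ‖c - c0‖ ≤ Real.exp (B * √((N : ℝ) * Real.log (Real.log N)))) := by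
  obtain ⟨B1, hB1, hnear⟩ := h.near hd nearG
  obtain ⟨B2, hB2, hcen⟩ := h.centre hd hβ Pool.Agent.Y165.TY.centre
  obtain ⟨A', hA', hs⟩ := h.sumg hd
  have hA0 : 0 ≤ A' := h.A0.trans hA'
  have hd2 : (2 : ℝ) ≤ d := by exact_mod_cast hd
  have hd0 : (0 : ℝ) < d := by linarith
  have hld : 0 < Real.log d := Real.log_pos (by linarith)
  have hgpos : ∀ n, 0.69 ≤ gg n := fun n => (log_two_le n).trans (log_le_gg n)
  -- lower bound of the derivatives
  have hM : ∀ n : ℕ, n * Real.log d - d * A' * gg n ≤ Real.log ‖MM d c0 (n + 1)‖ := by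
    intro n
    rw [log_MM hd c0 n fun j _ => h.P_ne j]
    have h10 := (abs_le.1 (hs n)).1
    have h11 : ((d : ℝ) - 1) * -(A' * gg n) ≤
        ((d : ℝ) - 1) * ∑ n ∈ Finset.range n, Real.log ‖P d (n + 1) c0‖ :=
      mul_le_mul_of_nonneg_left h10 (by linarith)
    have h12 : 0 ≤ A' * gg n := mul_nonneg hA0 (by linarith [hgpos n])
    nlinarith
  -- the constant in the exponent of the upper bound
  obtain ⟨B3, hB3⟩ : ∃ B3 : ℝ, B3 = 2 * (d + B2) + 1 + d * A' := ⟨_, rfl⟩
  have hB30 : 0 < B3 := by rw [hB3]; positivity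
  have hup : ∀ (n : ℕ) (c : ℂ), ‖c - c0‖ * ‖MM d c0 (n + 1)‖ ≤ B2 * Real.log (n + 2) →
      (d : ℝ) ^ (n + 1) * ‖c - c0‖ ≤ Real.exp (B3 * gg n) := by
    intro n c hc
    have hMne := MM_ne_zero hd c0 n fun j _ => h.P_ne j
    have hMpos : 0 < ‖MM d c0 (n + 1)‖ := norm_pos_iff.2 hMne
    have h1 : Real.exp (n * Real.log d - d * A' * gg n) ≤ ‖MM d c0 (n + 1)‖ := by
      rw [← Real.le_log_iff_exp_le hMpos]
      exact hM n
    have h2 : (d : ℝ) ^ n = Real.exp (n * Real.log d) := by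
      rw [Real.exp_nat_mul, Real.exp_log hd0]
    have h3 : (d : ℝ) ^ n ≤ Real.exp (d * A' * gg n) * ‖MM d c0 (n + 1)‖ := by
      rw [h2]
      calc Real.exp (n * Real.log d) =
            Real.exp (d * A' * gg n) * Real.exp (n * Real.log d - d * A' * gg n) := by
              rw [← Real.exp_add]; congr 1; ring
        _ ≤ _ := mul_le_mul_of_nonneg_left h1 (Real.exp_pos _).le
    have hg := hgpos n
    have hL := log_le_gg n
    have hL0 := log_two_le n
    calc (d : ℝ) ^ (n + 1) * ‖c - c0‖ = d * ((d : ℝ) ^ n * ‖c - c0‖) := by ring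
      _ ≤ d * ((Real.exp (d * A' * gg n) * ‖MM d c0 (n + 1)‖) * ‖c - c0‖) := by gcongr
      _ = d * Real.exp (d * A' * gg n) * (‖c - c0‖ * ‖MM d c0 (n + 1)‖) := by ring
      _ ≤ d * Real.exp (d * A' * gg n) * (B2 * Real.log (n + 2)) := by gcongr
      _ ≤ d * Real.exp (d * A' * gg n) * (B2 * gg n) := by gcongr
      _ ≤ Real.exp (B3 * gg n) := by
        have e1 : (d : ℝ) ≤ Real.exp (2 * d * gg n) := by
          have := Real.add_one_le_exp (2 * (d : ℝ) * gg n)
          nlinarith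
        have e2 : B2 ≤ Real.exp (2 * B2 * gg n) := by
          have := Real.add_one_le_exp (2 * B2 * gg n)
          nlinarith
        have e3 : gg n ≤ Real.exp (1 * gg n) := by
          have := Real.add_one_le_exp (1 * gg n)
          linarith
        calc (d : ℝ) * Real.exp (d * A' * gg n) * (B2 * gg n) ≤
              Real.exp (2 * d * gg n) * Real.exp (d * A' * gg n) *
                (Real.exp (2 * B2 * gg n) * Real.exp (1 * gg n)) := by
                gcongr
          _ = Real.exp (B3 * gg n) := by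
            rw [hB3, ← Real.exp_add, ← Real.exp_add, ← Real.exp_add]
            congr 1
            ring
  -- largeness
  have h4 : ∀ᶠ n : ℕ in atTop, gg n / n < Real.log d / (4 * (B1 + B3)) :=
    gg_lim.eventually (gt_mem_nhds (by positivity))
  obtain ⟨N1, hN1⟩ := eventually_atTop.1 h4
  refine ⟨4 * (B1 + B3), max N1 16 + 1, by positivity, by omega, ?_⟩
  intro N hN
  have hN16 : 16 ≤ N := by omega
  have hgN := gg_le_sqrt hN16
  have hsq : 0 ≤ √((N : ℝ) * Real.log (Real.log N)) := Real.sqrt_nonneg _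
  constructor
  · intro c p hp1 hpN hp0
    by_contra hcon
    push Not at hcon
    refine hnear N c ?_ p hp1 hpN hp0
    rw [mul_comm]
    refine hcon.le.trans ?_
    rw [Real.exp_le_exp, neg_le_neg_iff]
    calc B1 * gg N ≤ B1 * (4 * √((N : ℝ) * Real.log (Real.log N))) :=
          mul_le_mul_of_nonneg_left hgN hB1
      _ ≤ _ := by nlinarith [mul_nonneg hB30.le hsq]
  · obtain ⟨n, rfl⟩ : ∃ n, N = n + 1 := ⟨N - 1, by omega⟩
    obtain ⟨c, hc, hP⟩ := hcen n
    have hc2 := hup n c hc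
    have hgn1 : gg n ≤ gg (n + 1) := gg_mono (Nat.le_succ n)
    have hfin : (d : ℝ) ^ (n + 1) * ‖c - c0‖ ≤ Real.exp (4 * (B1 + B3) *
        √(((n + 1 : ℕ) : ℝ) * Real.log (Real.log ((n + 1 : ℕ) : ℝ)))) := by
      refine hc2.trans ?_
      rw [Real.exp_le_exp]
      calc B3 * gg n ≤ B3 * gg (n + 1) := mul_le_mul_of_nonneg_left hgn1 hB30.le
        _ ≤ B3 * (4 * √(((n + 1 : ℕ) : ℝ) * Real.log (Real.log ((n + 1 : ℕ) : ℝ)))) :=
          mul_le_mul_of_nonneg_left hgN hB30.le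
        _ ≤ _ := by nlinarith [mul_nonneg hB1 hsq]
    -- no smaller period
    have hsmall : ∀ q : ℕ, 1 ≤ q → 2 * q ≤ n + 2 → P d q c ≠ 0 := by
      intro q hq1 hq2
      refine hnear q c ?_ q hq1 le_rfl
      have hnN := hN1 n (by omega)
      have hn0 : (0 : ℝ) < n := by exact_mod_cast (by omega : 0 < n)
      rw [div_lt_div_iff₀ hn0 (by positivity)] at hnN
      have hqn : gg q ≤ gg n := gg_mono (by omega)
      -- `‖c - c0‖ ≤ exp (B3 gg n - (n+1) log d)`
      have h5 : (d : ℝ) ^ (n + 1) = (d : ℝ) ^ q * (d : ℝ) ^ (n + 1 - q) := by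
        rw [← pow_add]; congr 1; omega
      have h6 : (d : ℝ) ^ q * ‖c - c0‖ * (d : ℝ) ^ (n + 1 - q) ≤ Real.exp (B3 * gg n) := by
        calc (d : ℝ) ^ q * ‖c - c0‖ * (d : ℝ) ^ (n + 1 - q) = (d : ℝ) ^ (n + 1) * ‖c - c0‖ := by
              rw [h5]; ring
          _ ≤ _ := hc2
      have h7 : (d : ℝ) ^ (n + 1 - q) = Real.exp (((n + 1 - q : ℕ) : ℝ) * Real.log d) := by
        rw [Real.exp_nat_mul, Real.exp_log hd0]
      have h8 : ((n : ℝ)) / 2 ≤ ((n + 1 - q : ℕ) : ℝ) := by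
        rw [div_le_iff₀ (by norm_num)]
        exact_mod_cast (by omega : n ≤ (n + 1 - q) * 2)
      have h9 : B1 * gg q + B3 * gg n ≤ ((n + 1 - q : ℕ) : ℝ) * Real.log d := by
        have e1 : B1 * gg q ≤ B1 * gg n := mul_le_mul_of_nonneg_left hqn hB1
        have e2 : (n : ℝ) / 2 * Real.log d ≤ ((n + 1 - q : ℕ) : ℝ) * Real.log d :=
          mul_le_mul_of_nonneg_right h8 hld.le
        nlinarith
      rw [h7] at h6
      rw [mul_comm ‖c - c0‖]
      have h10 : (d : ℝ) ^ q * ‖c - c0‖ ≤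
          Real.exp (B3 * gg n) * Real.exp (-(((n + 1 - q : ℕ) : ℝ) * Real.log d)) := by
        rw [Real.exp_neg, ← div_eq_mul_inv, le_div_iff₀ (Real.exp_pos _)]
        exact h6
      refine h10.trans ?_
      rw [← Real.exp_add, Real.exp_le_exp]
      linarith
    have hdiv : ∀ m : ℕ, 1 ≤ m → m ≤ n + 2 → P d m c = 0 →
        ∀ k : ℕ, 1 ≤ k → k < m → P d k c ≠ 0 := by
      intro m hm1 hm hm0
      obtain ⟨p, hp1, hpm, hp0, hpmin⟩ := min_period hm1 hm0
      have hpe : p = m := by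
        by_contra hne
        obtain ⟨t, ht⟩ := hpm
        have ht2 : 2 ≤ t := by
          rcases t with _ | _ | t
          · omega
          · omega
          · omega
        refine hsmall p hp1 ?_ hp0
        calc 2 * p ≤ t * p := Nat.mul_le_mul_right p ht2
          _ = m := by rw [ht]; ring
          _ ≤ n + 2 := hm
      rw [← hpe]
      exact hpmin
    have hfin2 : ‖c - c0‖ * ‖MM d c0 (n + 1)‖ ≤
        4 * (B1 + B3) * Real.log (((n + 1 : ℕ) : ℝ) + 1) := by
      have e1 : ((n + 1 : ℕ) : ℝ) + 1 = (n : ℝ) + 2 := by push_cast; ring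
      rw [e1]
      refine hc.trans (mul_le_mul_of_nonneg_right ?_ (by linarith [log_two_le n]))
      rw [hB3]
      have : 0 ≤ d * A' := by positivity
      linarith
    rcases hP with h0 | h0
    · exact ⟨c, n + 1, Or.inl rfl, h0, hdiv (n + 1) (by omega) (by omega) h0, hfin2, hfin⟩
    · exact ⟨c, n + 2, Or.inr rfl, h0, hdiv (n + 2) (by omega) (by omega) h0, hfin2, hfin⟩

end Pool.Agent.K3h63.TC
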