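import Mathlib
import Pool.Agent.K3h63.TC.Per
import Pool.Agent.Y405.TY.Dist

set_option autoImplicit false

/-!
# The superattracting parameters near a typical parameter, with polynomial precision
-/

open Complex Filter Topology Metric Set MeasureTheory

namespace Pool.Agent.K3h63.TC

open Pool.Agent.H712R2 Pool.Agent.H713R2 Pool.Agent.W677.Mar Pool.Agent.Y272.TY

/-- the sums of the inverses of the derivatives are bounded -/
theorem sum_inv {d : ℕ} (hd : 2 ≤ d) {β : ℂ → ℂ} {θ : ℝ} {c0 : ℂ} {A : ℝ}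
    {R : ℂ} (h : Typ d β θ c0 A R) : ∃ S : ℝ, 1 ≤ S ∧ ∀ j : ℕ,
      ∑ i ∈ Finset.Icc 1 j, 1 / mm d c0 i ≤ S := by
  have hd2 : (2 : ℝ) ≤ d := by exact_mod_cast hd
  have hd0 : (0 : ℝ) < d := by linarith
  have hl2 : 0 < Real.log 2 := Real.log_pos (by norm_num)
  have hld : Real.log 2 ≤ Real.log d := Real.log_le_log (by norm_num) hd2
  obtain ⟨K, hK, hlow⟩ := h.low hd (show 0 < Real.log 2 / 2 by positivity)
  obtain ⟨q, hq⟩ : ∃ q : ℝ, q = Real.exp (-(Real.log 2 / 2)) := ⟨_, rfl⟩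
  have hq0 : 0 < q := by rw [hq]; exact Real.exp_pos _
  have hq1 : q < 1 := by rw [hq, Real.exp_lt_one_iff]; linarith
  have hterm : ∀ n : ℕ, 1 / mm d c0 (n + 1) ≤ Real.exp K * q ^ n := by
    intro n
    rw [mm_eq]
    have hMne := MM_ne_zero hd c0 n fun j _ => h.P_ne j
    have hMpos : 0 < ‖MM d c0 (n + 1)‖ := norm_pos_iff.2 hMne
    have h1 : Real.exp (n * (Real.log d - Real.log 2 / 2) - K) ≤ ‖MM d c0 (n + 1)‖ := by
      rw [← Real.le_log_iff_exp_le hMpos]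
      exact hlow n
    have h2 : Real.exp (n * (Real.log 2 / 2) - K) ≤ ‖MM d c0 (n + 1)‖ := by
      refine le_trans ?_ h1
      rw [Real.exp_le_exp]
      have : (n : ℝ) * (Real.log 2 / 2) ≤ n * (Real.log d - Real.log 2 / 2) :=
        mul_le_mul_of_nonneg_left (by linarith) (Nat.cast_nonneg n)
      linarith
    have h3 : Real.exp K * q ^ n = 1 / Real.exp (n * (Real.log 2 / 2) - K) := by
      rw [hq, ← Real.exp_nat_mul, ← Real.exp_add, one_div, ← Real.exp_neg]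
      congr 1
      ring
    rw [h3]
    exact one_div_le_one_div_of_le (Real.exp_pos _) h2
  refine ⟨Real.exp K / (1 - q) + 1, by
    have : 0 ≤ Real.exp K / (1 - q) := div_nonneg (Real.exp_pos K).le (by linarith)
    linarith, fun j => ?_⟩
  have h1 : ∑ i ∈ Finset.Icc 1 j, 1 / mm d c0 i = ∑ n ∈ Finset.range j, 1 / mm d c0 (n + 1) := by
    rw [Finset.range_eq_Ico, Finset.sum_Ico_add' (fun i => 1 / mm d c0 i) 0 j 1]
    rfl
  rw [h1]
  calc ∑ n ∈ Finset.range j, 1 / mm d c0 (n + 1) ≤ ∑ n ∈ Finset.range j, Real.exp K * q ^ n :=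
        Finset.sum_le_sum fun n _ => hterm n
    _ = Real.exp K * ∑ n ∈ Finset.range j, q ^ n := by rw [Finset.mul_sum]
    _ ≤ Real.exp K * (1 - q)⁻¹ := by
        apply mul_le_mul_of_nonneg_left _ (Real.exp_pos K).le
        rw [← tsum_geometric_of_lt_one hq0.le hq1]
        exact (summable_geometric_of_lt_one hq0.le hq1).sum_le_tsum _ (fun _ _ => by positivity)
    _ ≤ Real.exp K / (1 - q) + 1 := by rw [div_eq_mul_inv]; linarith

/-- Lower bound with polynomial precision. -/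
theorem lowerP {d : ℕ} (hd : 2 ≤ d) {β : ℂ → ℂ} {θ : ℝ} {c0 : ℂ} {A : ℝ}
    {R : ℂ} (h : Typ d β θ c0 A R) : ∃ (B : ℝ) (N₀ : ℕ), 0 < B ∧ 16 ≤ N₀ ∧ ∀ N : ℕ, N₀ ≤ N →
      ∀ (c : ℂ) (p : ℕ), 1 ≤ p → p ≤ N → P d p c = 0 →
        ∃ j : ℕ, j ≤ N ∧ (N : ℝ) ^ (-B) ≤ ‖MM d c0 (j + 1)‖ * ‖c - c0‖ := by
  obtain ⟨S, hS, hsum⟩ := sum_inv hd h
  have hA := h.A0
  have hd2 : (2 : ℝ) ≤ d := by exact_mod_cast hd
  have hd0 : (0 : ℝ) < d := by linarith
  obtain ⟨N1, hN1⟩ := exists_nat_ge (3 * S * d)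
  refine ⟨2 * A + 5, max N1 16, by positivity, le_max_right _ _, ?_⟩
  intro N hN c p hp1 hpN hp0
  have hN16 : 16 ≤ N := (le_max_right _ _).trans hN
  have h16 : (16 : ℝ) ≤ N := by exact_mod_cast hN16
  have hNS : 3 * S * d ≤ N := hN1.trans (by exact_mod_cast (le_max_left _ _).trans hN)
  by_contra hcon
  push Not at hcon
  have hN0 : (0 : ℝ) < N := by linarith
  -- the condition of the comparison
  have hmm : ∀ j : ℕ, 1 ≤ j → 0 < mm d c0 j := by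
    intro j hj
    obtain ⟨k, rfl⟩ : ∃ k, j = k + 1 := ⟨j - 1, by omega⟩
    rw [mm_eq]
    exact norm_pos_iff.2 (MM_ne_zero hd c0 k fun j _ => h.P_ne j)
  have hcond : ∀ j ∈ Finset.Icc 1 N,
      3 * mm d c0 j * (∑ i ∈ Finset.Icc 1 j, 1 / mm d c0 i) * ‖c - c0‖ ≤
        ‖P d j c0‖ / (d * ((j : ℝ) + 1) ^ 2) := by
    intro j hj
    rw [Finset.mem_Icc] at hj
    obtain ⟨k, rfl⟩ : ∃ k, j = k + 1 := ⟨j - 1, by omega⟩
    have h1 := hcon k (by omega)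
    rw [← mm_eq] at h1
    have h2 := hsum (k + 1)
    have h3 := h.rec' k
    have hj1 : (((k + 1 : ℕ) : ℝ) + 1) ≤ (N : ℝ) + 1 := by
      have : ((k + 1 : ℕ) : ℝ) ≤ N := by exact_mod_cast hj.2
      linarith
    have hj0 : (0 : ℝ) < ((k + 1 : ℕ) : ℝ) + 1 := by positivity
    have h4 : (1 : ℝ) ≤ (N + 1 : ℝ) ^ A * ‖P d (k + 1) c0‖ := by
      have h5 : Real.exp (-(A * Real.log (k + 2))) = ((k : ℝ) + 2) ^ (-A) := by
        rw [Real.rpow_def_of_pos (by positivity)]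
        congr 1
        ring
      rw [h5, Real.rpow_neg (by positivity)] at h3
      have h6 : ((k : ℝ) + 2) ^ A ≤ ((N : ℝ) + 1) ^ A := by
        apply Real.rpow_le_rpow (by positivity) _ hA
        push_cast at hj1
        linarith
      have h7 : 0 < ((k : ℝ) + 2) ^ A := Real.rpow_pos_of_pos (by positivity) _
      rw [inv_le_iff_one_le_mul₀ h7] at h3
      calc (1 : ℝ) ≤ ‖P d (k + 1) c0‖ * ((k : ℝ) + 2) ^ A := by linarith
        _ ≤ ‖P d (k + 1) c0‖ * ((N : ℝ) + 1) ^ A := by gcongr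
        _ = _ := by ring
    have h8 : (N + 1 : ℝ) ^ (A + 2) ≤ (N : ℝ) ^ (2 * A + 4) := by
      have h9 : (N : ℝ) ^ (2 * A + 4) = ((N : ℝ) ^ (2 : ℝ)) ^ (A + 2) := by
        rw [← Real.rpow_mul hN0.le]
        congr 1
        ring
      rw [h9]
      apply Real.rpow_le_rpow (by positivity) _ (by linarith)
      rw [Real.rpow_two]
      nlinarith
    have h10 : (N : ℝ) ^ (-(2 * A + 5)) * (N : ℝ) ^ (2 * A + 4) * N = 1 := by
      nth_rewrite 3 [← Real.rpow_one (N : ℝ)]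
      rw [← Real.rpow_add hN0, ← Real.rpow_add hN0]
      rw [show -(2 * A + 5) + (2 * A + 4) + 1 = 0 by ring, Real.rpow_zero]
    have hpw : 0 < (N : ℝ) ^ (-(2 * A + 5)) := Real.rpow_pos_of_pos hN0 _
    rw [le_div_iff₀ (by positivity)]
    have hsum0 : 0 ≤ ∑ i ∈ Finset.Icc 1 (k + 1), 1 / mm d c0 i :=
      Finset.sum_nonneg fun i hi => by
        rw [Finset.mem_Icc] at hi
        exact (one_div_pos.2 (hmm i hi.1)).le
    have hmk := hmm (k + 1) (by omega)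
    calc 3 * mm d c0 (k + 1) * (∑ i ∈ Finset.Icc 1 (k + 1), 1 / mm d c0 i) * ‖c - c0‖ *
          (d * (((k + 1 : ℕ) : ℝ) + 1) ^ 2) =
          3 * (∑ i ∈ Finset.Icc 1 (k + 1), 1 / mm d c0 i) * (mm d c0 (k + 1) * ‖c - c0‖) *
          (d * (((k + 1 : ℕ) : ℝ) + 1) ^ 2) := by ring
      _ ≤ 3 * S * (N : ℝ) ^ (-(2 * A + 5)) * (d * ((N : ℝ) + 1) ^ 2) := by
          gcongr
      _ = (3 * S * d) * (N : ℝ) ^ (-(2 * A + 5)) * ((N : ℝ) + 1) ^ (2 : ℝ) := by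
          rw [Real.rpow_two]; ring
      _ ≤ N * (N : ℝ) ^ (-(2 * A + 5)) * ((N : ℝ) + 1) ^ (2 : ℝ) := by gcongr
      _ ≤ N * (N : ℝ) ^ (-(2 * A + 5)) * ((N : ℝ) + 1) ^ (2 : ℝ) *
          ((N + 1 : ℝ) ^ A * ‖P d (k + 1) c0‖) := by
          apply le_mul_of_one_le_right _ h4
          positivity
      _ = N * (N : ℝ) ^ (-(2 * A + 5)) * ((N : ℝ) + 1) ^ (A + 2) * ‖P d (k + 1) c0‖ := by
          rw [Real.rpow_add (by positivity)]
          ring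
      _ ≤ N * (N : ℝ) ^ (-(2 * A + 5)) * (N : ℝ) ^ (2 * A + 4) * ‖P d (k + 1) c0‖ := by gcongr
      _ = ((N : ℝ) ^ (-(2 * A + 5)) * (N : ℝ) ^ (2 * A + 4) * N) * ‖P d (k + 1) c0‖ := by ring
      _ = ‖P d (k + 1) c0‖ := by rw [h10, one_mul]
  have hdist := Pool.Agent.Y405.TY.t d c0 c N hd
    (fun j hj => hmm j (Finset.mem_Icc.1 hj).1) hcond p (Finset.mem_Icc.2 ⟨hp1, hpN⟩)
  have h2 := hcond p (Finset.mem_Icc.2 ⟨hp1, hpN⟩)
  rw [hp0, zero_sub, norm_neg] at hdist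
  have hPp : 0 < ‖P d p c0‖ := by
    obtain ⟨k, rfl⟩ : ∃ k, p = k + 1 := ⟨p - 1, by omega⟩
    exact norm_pos_iff.2 (h.P_ne k)
  have h3 : ‖P d p c0‖ / (d * ((p : ℝ) + 1) ^ 2) < ‖P d p c0‖ := by
    apply div_lt_self hPp
    have : (1 : ℝ) ≤ ((p : ℝ) + 1) ^ 2 := one_le_pow₀ (by linarith [(Nat.cast_nonneg p : (0 : ℝ) ≤ p)])
    nlinarith
  linarith

end Pool.Agent.K3h63.TC
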