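import Mathlib
import Pool.Agent.K3h63.TC.Lil

set_option autoImplicit false

/-!
# The superattracting parameters near a typical parameter: all bounds together
-/

open Complex Filter Topology Metric Set MeasureTheory

namespace Pool.Agent.K3h63.TC

open Pool.Agent.H712R2 Pool.Agent.H713R2 Pool.Agent.W677.Mar Pool.Agent.Y272.TY

/-- the iterated logarithm -/
noncomputable def EE (d N : ℕ) : ℝ := √((N : ℝ) * Real.log d * Real.log (Real.log N))

theorem EE_ge {d : ℕ} (hd : 2 ≤ d) {n : ℕ} (hn : 16 ≤ n) : √(n : ℝ) ≤ 2 * EE d n := by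
  have hn1 : (16 : ℝ) ≤ n := by exact_mod_cast hn
  have h5 : 1 ≤ Real.log (Real.log (n : ℝ)) := by
    have := loglog16 (n - 16)
    rw [Nat.cast_sub hn] at this
    push_cast at this
    rwa [sub_add_cancel] at this
  have h6 : 0.69 ≤ Real.log d := by
    have h7 := Real.log_two_gt_d9
    have h8 : Real.log 2 ≤ Real.log d :=
      Real.log_le_log (by norm_num) (by exact_mod_cast hd)
    linarith
  unfold EE
  rw [Real.sqrt_le_left (by positivity), mul_pow, Real.sq_sqrt (by positivity)]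
  have h9 : 0.69 ≤ Real.log d * Real.log (Real.log (n : ℝ)) := by nlinarith
  nlinarith

theorem EE_mono {d : ℕ} (hd : 2 ≤ d) {j n : ℕ} (hj : 16 ≤ j) (hn : j ≤ n) : EE d j ≤ EE d n := by
  have hj1 : (16 : ℝ) ≤ j := by exact_mod_cast hj
  have hn1 : (j : ℝ) ≤ n := by exact_mod_cast hn
  have h5 : 1 ≤ Real.log (Real.log (j : ℝ)) := by
    have := loglog16 (j - 16)
    rw [Nat.cast_sub hj] at this
    push_cast at this
    rwa [sub_add_cancel] at this
  have h6 : 0 ≤ Real.log d := Real.log_natCast_nonneg d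
  have h7 : 0 < Real.log (j : ℝ) := Real.log_pos (by linarith)
  have h8 : Real.log (j : ℝ) ≤ Real.log n := Real.log_le_log (by linarith) hn1
  have h9 := Real.log_le_log h7 h8
  unfold EE
  gcongr

/-- logarithms are small -/
theorem log_small {d : ℕ} (hd : 2 ≤ d) {B : ℝ} (hB : 0 ≤ B) :
    ∀ᶠ n : ℕ in atTop, B * Real.log ((n : ℝ) + 2) ≤ EE d n := by
  filter_upwards [log_sq_small (4 * B), eventually_ge_atTop 16] with n h1 h2
  have h3 := EE_ge hd h2
  have h4 := log_two_le n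
  nlinarith [mul_nonneg hB (mul_nonneg (by linarith : 0 ≤ Real.log ((n : ℝ) + 2))
    (by linarith : 0 ≤ 2 * Real.log ((n : ℝ) + 2) - 1))]

theorem MM_succ_le {d : ℕ} {c0 : ℂ} (hP : ∀ k, ‖P d k c0‖ ≤ 2) (n : ℕ) :
    ‖MM d c0 (n + 2)‖ ≤ ‖MM d c0 (n + 1)‖ * (d * 2 ^ (d - 1)) := by
  rw [MM_succ d c0 (by omega), norm_mul, norm_mul, norm_pow, Complex.norm_natCast]
  gcongr
  exact hP _

/-- all bounds for the superattracting parameters near a typical parameter -/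
theorem final {d : ℕ} (hd : 2 ≤ d) {β : ℂ → ℂ} (hβ : IsBeta d β) {θ : ℝ} {c0 : ℂ} {A : ℝ}
    {R : ℂ} (h : Typ d β θ c0 A R) : ∃ (B : ℝ) (N₀ : ℕ), 0 < B ∧ ∀ N : ℕ, N₀ ≤ N →
      (∀ (c : ℂ) (p : ℕ), 1 ≤ p → p ≤ N → P d p c = 0 →
        (∃ j : ℕ, j ≤ N ∧ (N : ℝ) ^ (-B) ≤ ‖MM d c0 (j + 1)‖ * ‖c - c0‖) ∧
        Real.exp (-(33 * EE d N)) ≤ (d : ℝ) ^ N * ‖c - c0‖) ∧
      (∃ (c : ℂ) (p : ℕ), 1 ≤ p ∧ p ≤ N ∧ P d p c = 0 ∧
        ∀ j : ℕ, j ≤ N → ‖MM d c0 (j + 1)‖ * ‖c - c0‖ ≤ B * Real.log N) ∧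
      (∃ (c : ℂ) (p : ℕ), (p = N ∨ p = N + 1) ∧ P d p c = 0 ∧
        (∀ k : ℕ, 1 ≤ k → k < p → P d k c ≠ 0) ∧
        ‖MM d c0 (N + 1)‖ * ‖c - c0‖ ≤ B * Real.log N ∧
        (d : ℝ) ^ N * ‖c - c0‖ ≤ Real.exp (33 * EE d N)) := by
  obtain ⟨B1, N1, hB1, hN1, hlow⟩ := lowerP hd h
  obtain ⟨B2, hB2, hcen⟩ := h.centre hd hβ Pool.Agent.Y165.TY.centre
  obtain ⟨B3, N3, hB3, hN3, hper⟩ := centres hd hβ h
  obtain ⟨N4, hN4⟩ := eventually_atTop.1 (h.lilM hd)
  obtain ⟨M4, hM4⟩ : ∃ M4, M4 = max N4 16 := ⟨_, rfl⟩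
  have hd2 : (2 : ℝ) ≤ d := by exact_mod_cast hd
  have hd0 : (0 : ℝ) < d := by linarith
  have hld : 0 < Real.log d := Real.log_pos (by linarith)
  have hP2 : ∀ k, ‖P d k c0‖ ≤ 2 := h.P_le hd hβ
  have hMpos : ∀ n, 0 < ‖MM d c0 (n + 1)‖ := fun n =>
    norm_pos_iff.2 (MM_ne_zero hd c0 n fun j _ => h.P_ne j)
  obtain ⟨D, hD⟩ : ∃ D : ℝ, D = d * 2 ^ (d - 1) := ⟨_, rfl⟩
  have hD1 : 1 ≤ D := by
    rw [hD]
    have : (1 : ℝ) ≤ 2 ^ (d - 1) := one_le_pow₀ (by norm_num)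
    nlinarith
  have hsucc : ∀ n, ‖MM d c0 (n + 2)‖ ≤ ‖MM d c0 (n + 1)‖ * D := fun n => by
    rw [hD]; exact MM_succ_le hP2 n
  -- the maximum over small indices
  obtain ⟨S, hS⟩ : ∃ S : ℝ, S = ∑ j ∈ Finset.range M4, ‖MM d c0 (j + 1)‖ := ⟨_, rfl⟩
  have hSle : ∀ j, j < M4 → ‖MM d c0 (j + 1)‖ ≤ S := by
    intro j hj
    rw [hS]
    exact Finset.single_le_sum (f := fun j => ‖MM d c0 (j + 1)‖)
      (fun _ _ => norm_nonneg _) (Finset.mem_range.2 hj)
  have hpow : Tendsto (fun n : ℕ => (d : ℝ) ^ n) atTop atTop :=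
    tendsto_pow_atTop_atTop_of_one_lt (by linarith)
  have e1 := (log_small hd hB1.le).and (hpow.eventually_ge_atTop S)
  have e2 := log_small hd (show 0 ≤ 2 * (d * B3 + 1) by positivity)
  obtain ⟨N5, hN5⟩ := eventually_atTop.1 (e1.and e2)
  refine ⟨B1 + D ^ 2 * B2 + D * (2 * B3), N1 + N3 + M4 + N5 + 2, by positivity, ?_⟩
  intro N hN
  have hN16 : 16 ≤ N := by omega
  have h16 : (16 : ℝ) ≤ N := by exact_mod_cast hN16
  have hNpos : (0 : ℝ) < N := by linarith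
  obtain ⟨⟨e3, e4⟩, e5⟩ := hN5 N (by omega)
  have hlogN : Real.log (N : ℝ) ≤ Real.log ((N : ℝ) + 2) :=
    Real.log_le_log (by linarith) (by linarith)
  have hlogN1 : 1 ≤ Real.log (N : ℝ) := by
    have h1 : Real.log 16 ≤ Real.log (N : ℝ) := Real.log_le_log (by norm_num) h16
    have h3 : Real.log 16 = 4 * Real.log 2 := by
      rw [show (16 : ℝ) = 2 ^ 4 by norm_num, Real.log_pow]; norm_num
    have h4 := Real.log_two_gt_d9
    linarith
  have hlogN2 : Real.log ((N : ℝ) + 2) ≤ 2 * Real.log N := by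
    have h1 : Real.log ((N : ℝ) + 2) ≤ Real.log ((N : ℝ) ^ 2) :=
      Real.log_le_log (by linarith) (by nlinarith)
    rw [Real.log_pow] at h1
    push_cast at h1
    linarith
  have hEE0 : 0 ≤ EE d N := Real.sqrt_nonneg _
  -- upper bounds of the derivatives
  have hupM : ∀ j, j ≤ N → ‖MM d c0 (j + 1)‖ ≤ (d : ℝ) ^ N * Real.exp (32 * EE d N) := by
    intro j hj
    rcases lt_or_ge j M4 with hj4 | hj4
    · calc ‖MM d c0 (j + 1)‖ ≤ S := hSle j hj4
        _ ≤ (d : ℝ) ^ N := e4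
        _ ≤ _ := le_mul_of_one_le_right (by positivity) (Real.one_le_exp (by positivity))
    · have h1 := hN4 j (by omega)
      have h2 : √((j : ℝ) * Real.log d * Real.log (Real.log j)) ≤ EE d N :=
        EE_mono hd (by omega : 16 ≤ j) hj
      have h3 := (abs_le.1 h1).2
      have h4 : (d : ℝ) ^ N = Real.exp (N * Real.log d) := by
        rw [Real.exp_nat_mul, Real.exp_log hd0]
      rw [h4, ← Real.exp_add, ← Real.log_le_iff_le_exp (hMpos j)]
      have h5 : (j : ℝ) * Real.log d ≤ N * Real.log d := by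
        have : (j : ℝ) ≤ N := by exact_mod_cast hj
        gcongr
      linarith
  have hloM : (d : ℝ) ^ N ≤ ‖MM d c0 (N + 1)‖ * Real.exp (32 * EE d N) := by
    have h1 := (abs_le.1 (hN4 N (by omega))).1
    have h4 : (d : ℝ) ^ N = Real.exp (N * Real.log d) := by
      rw [Real.exp_nat_mul, Real.exp_log hd0]
    rw [h4, ← div_le_iff₀ (Real.exp_pos _), ← Real.exp_sub, ← Real.le_log_iff_exp_le (hMpos N)]
    have h2 : √((N : ℝ) * Real.log d * Real.log (Real.log N)) = EE d N := rfl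
    rw [h2] at h1
    linarith
  refine ⟨?_, ?_, ?_⟩
  · intro c p hp1 hpN hp0
    obtain ⟨j, hj, hjc⟩ := hlow N (by omega) c p hp1 hpN hp0
    refine ⟨⟨j, hj, le_trans ?_ hjc⟩, ?_⟩
    · apply Real.rpow_le_rpow_of_exponent_le (by linarith)
      have : 0 ≤ D ^ 2 * B2 + D * (2 * B3) := by positivity
      linarith
    · have h1 := hupM j hj
      have h2 : Real.exp (-(EE d N)) ≤ (N : ℝ) ^ (-B1) := by
        rw [Real.rpow_def_of_pos hNpos, Real.exp_le_exp]
        nlinarith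
      have h3 : Real.exp (-(EE d N)) ≤ (d : ℝ) ^ N * Real.exp (32 * EE d N) * ‖c - c0‖ :=
        (h2.trans hjc).trans (mul_le_mul_of_nonneg_right h1 (norm_nonneg _))
      calc Real.exp (-(33 * EE d N)) = Real.exp (-(EE d N)) * Real.exp (-(32 * EE d N)) := by
            rw [← Real.exp_add]; congr 1; ring
        _ ≤ (d : ℝ) ^ N * Real.exp (32 * EE d N) * ‖c - c0‖ * Real.exp (-(32 * EE d N)) := by
            gcongr
        _ = (d : ℝ) ^ N * ‖c - c0‖ * (Real.exp (32 * EE d N) * Real.exp (-(32 * EE d N))) := by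
            ring
        _ = _ := by rw [← Real.exp_add, add_neg_cancel, Real.exp_zero, mul_one]
  · -- the index of the maximum
    obtain ⟨n, hn, hmax⟩ := Finset.exists_max_image (Finset.range (N - 1))
      (fun j => ‖MM d c0 (j + 1)‖) ⟨0, Finset.mem_range.2 (by omega)⟩
    rw [Finset.mem_range] at hn
    obtain ⟨c, hc, hP⟩ := hcen n
    have hall : ∀ j : ℕ, j ≤ N → ‖MM d c0 (j + 1)‖ ≤ ‖MM d c0 (n + 1)‖ * D ^ 2 := by
      intro j hj
      have hbase : ∀ i, i < N - 1 → ‖MM d c0 (i + 1)‖ ≤ ‖MM d c0 (n + 1)‖ := fun i hi =>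
        hmax i (Finset.mem_range.2 hi)
      have hn0 := (hMpos n).le
      rcases lt_or_ge j (N - 1) with h1 | h1
      · exact (hbase j h1).trans (le_mul_of_one_le_right hn0 (one_le_pow₀ hD1))
      · have hN2 := hbase (N - 2) (by omega)
        have hs1 := hsucc (N - 2)
        have hs2 := hsucc (N - 1)
        rw [show N - 2 + 2 = N - 1 + 1 by omega] at hs1
        rcases Nat.lt_or_ge j N with h2 | h2
        · have hjN : j = N - 1 := by omega
          rw [hjN]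
          calc ‖MM d c0 (N - 1 + 1)‖ ≤ ‖MM d c0 (N - 2 + 1)‖ * D := hs1
            _ ≤ ‖MM d c0 (n + 1)‖ * D := by gcongr
            _ ≤ ‖MM d c0 (n + 1)‖ * D ^ 2 := by
              apply mul_le_mul_of_nonneg_left _ hn0
              nlinarith
        · have hjN : j + 1 = N - 1 + 2 := by omega
          rw [hjN]
          calc ‖MM d c0 (N - 1 + 2)‖ ≤ ‖MM d c0 (N - 1 + 1)‖ * D := hs2
            _ ≤ (‖MM d c0 (N - 2 + 1)‖ * D) * D := by gcongr
            _ ≤ (‖MM d c0 (n + 1)‖ * D) * D := by gcongr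
            _ = _ := by ring
    have hmain : ∀ j : ℕ, j ≤ N → ‖MM d c0 (j + 1)‖ * ‖c - c0‖ ≤
        (B1 + D ^ 2 * B2 + D * (2 * B3)) * Real.log N := by
      intro j hj
      have hlog : Real.log ((n : ℝ) + 2) ≤ Real.log N := by
        apply Real.log_le_log (by positivity)
        have : ((n + 2 : ℕ) : ℝ) ≤ N := by exact_mod_cast (by omega : n + 2 ≤ N)
        push_cast at this
        exact this
      calc ‖MM d c0 (j + 1)‖ * ‖c - c0‖ ≤ ‖MM d c0 (n + 1)‖ * D ^ 2 * ‖c - c0‖ := by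
            have := hall j hj
            gcongr
        _ = D ^ 2 * (‖c - c0‖ * ‖MM d c0 (n + 1)‖) := by ring
        _ ≤ D ^ 2 * (B2 * Real.log (n + 2)) := by gcongr
        _ ≤ D ^ 2 * (B2 * Real.log N) := by gcongr
        _ ≤ _ := by
          have : 0 ≤ (B1 + D * (2 * B3)) * Real.log N := by positivity
          nlinarith
    rcases hP with h0 | h0
    · exact ⟨c, n + 1, by omega, by omega, h0, hmain⟩
    · exact ⟨c, n + 2, by omega, by omega, h0, hmain⟩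
  · obtain ⟨c, p, hp, hp0, hmin, hbd, -⟩ := (hper N (by omega)).2
    have hMN : ‖MM d c0 (N + 1)‖ * ‖c - c0‖ ≤ D * (2 * B3) * Real.log N := by
      obtain ⟨k, rfl⟩ : ∃ k, N = k + 1 := ⟨N - 1, by omega⟩
      have hlog2 : Real.log (((k + 1 : ℕ) : ℝ) + 1) ≤ 2 * Real.log ((k + 1 : ℕ) : ℝ) :=
        (Real.log_le_log (by positivity) (by linarith)).trans hlogN2
      calc ‖MM d c0 (k + 2)‖ * ‖c - c0‖ ≤ (‖MM d c0 (k + 1)‖ * D) * ‖c - c0‖ := by
            have := hsucc k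
            gcongr
        _ = D * (‖c - c0‖ * ‖MM d c0 (k + 1)‖) := by ring
        _ ≤ D * (B3 * Real.log (((k + 1 : ℕ) : ℝ) + 1)) := by gcongr
        _ ≤ D * (B3 * (2 * Real.log ((k + 1 : ℕ) : ℝ))) := by gcongr
        _ = _ := by ring
    refine ⟨c, p, hp, hp0, hmin, hMN.trans ?_, ?_⟩
    · have : 0 ≤ (B1 + D ^ 2 * B2) * Real.log N := by positivity
      nlinarith
    · -- use the derivative of order `N - 1`
      obtain ⟨k, rfl⟩ : ∃ k, N = k + 1 := ⟨N - 1, by omega⟩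
      have h1 := (abs_le.1 (hN4 k (by omega))).1
      have h2 : √((k : ℝ) * Real.log d * Real.log (Real.log k)) ≤ EE d (k + 1) :=
        EE_mono hd (by omega : 16 ≤ k) (Nat.le_succ k)
      have h3 : (d : ℝ) ^ k ≤ ‖MM d c0 (k + 1)‖ * Real.exp (32 * EE d (k + 1)) := by
        have h4 : (d : ℝ) ^ k = Real.exp (k * Real.log d) := by
          rw [Real.exp_nat_mul, Real.exp_log hd0]
        rw [h4, ← div_le_iff₀ (Real.exp_pos _), ← Real.exp_sub,
          ← Real.le_log_iff_exp_le (hMpos k)]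
        linarith
      have h5 : d * (B3 * Real.log (((k + 1 : ℕ) : ℝ) + 1)) ≤ Real.exp (EE d (k + 1)) := by
        have h6 := Real.add_one_le_exp (EE d (k + 1))
        have h7 : Real.log (((k + 1 : ℕ) : ℝ) + 1) ≤ Real.log (((k + 1 : ℕ) : ℝ) + 2) :=
          Real.log_le_log (by positivity) (by linarith)
        have h8 : 0 ≤ Real.log (((k + 1 : ℕ) : ℝ) + 2) := by linarith
        have h9 : d * (B3 * Real.log (((k + 1 : ℕ) : ℝ) + 1)) ≤
            d * (B3 * Real.log (((k + 1 : ℕ) : ℝ) + 2)) := by gcongr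
        have h10 : 0 ≤ d * B3 * Real.log (((k + 1 : ℕ) : ℝ) + 2) := by positivity
        nlinarith
      calc (d : ℝ) ^ (k + 1) * ‖c - c0‖ = d * ((d : ℝ) ^ k * ‖c - c0‖) := by ring
        _ ≤ d * ((‖MM d c0 (k + 1)‖ * Real.exp (32 * EE d (k + 1))) * ‖c - c0‖) := by gcongr
        _ = d * (‖c - c0‖ * ‖MM d c0 (k + 1)‖) * Real.exp (32 * EE d (k + 1)) := by ring
        _ ≤ d * (B3 * Real.log (((k + 1 : ℕ) : ℝ) + 1)) * Real.exp (32 * EE d (k + 1)) := by
            gcongr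
        _ ≤ Real.exp (EE d (k + 1)) * Real.exp (32 * EE d (k + 1)) := by gcongr
        _ = _ := by rw [← Real.exp_add]; congr 1; ring

end Pool.Agent.K3h63.TC
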